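import Pool.Agent.H9.LG.MaxDeg

set_option autoImplicit false

/-!
# Linear arboricity of graphs of logarithmic girth

`H931R3.LA.la G` is the linear arboricity: the least number of linear forests (acyclic graphs all
of whose degrees are at most two) whose union is `G` (the same expression as in the frozen
statement S07085).
-/

namespace Pool.Agent.Results.MP_0a041d_co.LogarithmicGirth

open SimpleGraph H931R3.LA

/-- **The linear arboricity conjecture for logarithmic girth.**  There is a constant `C` such that
the following holds for every `r ≥ 1` and every finite graph `G` all of whose cycles have length at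
least `C * (1 + log r)`.

(1) If `G` is `r`-regular then `la G = ⌈(r + 1) / 2⌉`.
(2) If the maximum degree of `G` is at most `r` then `la G ≤ ⌈(r + 1) / 2⌉`. -/
theorem result : ∃ C : ℕ, ∀ (V : Type) [Finite V] [Nonempty V] (G : SimpleGraph V) (r : ℕ), 0 < r →
    (∀ (v : V) (c : G.Walk v v), c.IsCycle → C * (1 + Real.log r) ≤ c.length) →
    ((∀ v, (G.neighborSet v).ncard = r) → la G = (r + 2) / 2) ∧
    ((∀ v, (G.neighborSet v).ncard ≤ r) → la G ≤ (r + 2) / 2) := by
  obtain ⟨C, hC⟩ := Pool.Agent.H9.LG.cov_reg
  refine ⟨C, ?_⟩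
  intro V _ _ G r hr hcyc
  refine ⟨?_, ?_⟩
  · intro hreg
    exact Pool.Agent.W111.LAR.la_eq_of_cov hr hreg (hC V G r hr hreg hcyc)
  · intro hdeg
    have hcyc2 : ∀ (v : V) (c : G.Walk v v), c.IsCycle →
        ⌈(C * (1 + Real.log r) : ℝ)⌉₊ ≤ c.length := by
      intro v c hc
      exact Nat.ceil_le.2 (hcyc v c hc)
    obtain ⟨V', _, _, G', f, hf, hadj, hreg', hcyc'⟩ :=
      Pool.Agent.H9.LG.regularize G r _ hdeg hcyc2
    have hcov : Cov G' ((r + 2) / 2) := by
      refine hC V' G' r hr hreg' ?_
      intro v c hc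
      exact Nat.ceil_le.1 (hcyc' v c hc)
    exact la_le (Pool.Agent.H9.LG.t_PULL V V' G G' f _ hf hadj hcov)

end Pool.Agent.Results.MP_0a041d_co.LogarithmicGirth
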